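import Mathlib

/-!
# The upper directed `p`-domination number of complete uniform hypergraphs

For `1 ≤ p < r` with `r + 2 ≤ 2 ^ (p + 1)` (in particular for `p = r - 1` and every `r ≥ 2`) the
upper directed `p`-domination number of `H(n,r)` has order `log n`.

Lower bound: take a tournament `T` on the vertices in which no small set dominates (Erdős).
Every tournament on at most `2 ^ (p + 1) - 2` vertices is dominated by `p` of its vertices, so every
`r`-set `E` can be ordered with a dominating set of `T[E]` in the first `p` places.  Then a directed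
`p`-dominating set of this orientation dominates `T`.
-/

set_option autoImplicit false

namespace Pool.Agent.Results.MP_869403_co.LogOrder

open Finset

/-- An orientation of the complete `r`-uniform hypergraph `H(n,r)` on the vertex set `Fin n`: every
`r`-subset `E` gets one of its `r!` linear orderings, given as a bijection from the set `Fin r` of
places onto `E`. -/
def Orientation (n r : ℕ) : Type :=
  ∀ E : {E : Finset (Fin n) // E.card = r}, Fin r ≃ {v : Fin n // v ∈ E.1}

/-- `S` is a directed `p`-dominating set of `D`: every vertex `u` outside `S` lies in some edge `E`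
the first `p` vertices of which all belong to `S`. -/
def IsDominating {n r : ℕ} (p : ℕ) (D : Orientation n r) (S : Finset (Fin n)) : Prop :=
  ∀ u, u ∉ S → ∃ E : {E : Finset (Fin n) // E.card = r},
    u ∈ E.1 ∧ ∀ i : Fin r, i.val < p → (D E i).1 ∈ S

/-- The minimum size of a directed `p`-dominating set of `D`. -/
noncomputable def gamma {n r : ℕ} (p : ℕ) (D : Orientation n r) : ℕ :=
  sInf {k | ∃ S : Finset (Fin n), IsDominating p D S ∧ S.card = k}

/-- The upper directed `p`-domination number of `H(n,r)`: the maximum of `gamma p D` over all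
orientations `D`. -/
noncomputable def Gamma (p n r : ℕ) : ℕ := sSup {k | ∃ D : Orientation n r, gamma p D = k}

/-! ### Random tournaments -/

section tour

variable {n : ℕ}

/-- The tournament coded by `f`. -/
def t (f : Fin n → Fin n → Bool) (a u : Fin n) : Bool := if a < u then f a u else !(f u a)

/-- Reverse the arcs between `u` and `A`. -/
def flip (u : Fin n) (A : Finset (Fin n)) (f : Fin n → Fin n → Bool) : Fin n → Fin n → Bool :=
  fun x y => xor (f x y) (decide ((x = u ∧ y ∈ A) ∨ (y = u ∧ x ∈ A)))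

lemma flip_flip (u : Fin n) (A : Finset (Fin n)) (f : Fin n → Fin n → Bool) :
    flip u A (flip u A f) = f := by
  funext x y
  simp [flip]

lemma t_flip_self {u a : Fin n} {A : Finset (Fin n)} (f : Fin n → Fin n → Bool) (ha : a ≠ u) :
    t (flip u A f) a u = xor (t f a u) (decide (a ∈ A)) := by
  unfold t flip
  split_ifs with h
  · simp [ha]
  · have : ¬ (a = u ∧ u ∈ A) := fun h => ha h.1
    simp [this]

lemma t_flip_other {u a w : Fin n} {A : Finset (Fin n)} (f : Fin n → Fin n → Bool) (ha : a ≠ u)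
    (hw : w ≠ u) : t (flip u A f) a w = t f a w := by
  unfold t flip
  simp [ha, hw]

/-- The codes for which every vertex of `W` is dominated by `S`. -/
def Bad (S W : Finset (Fin n)) : Finset (Fin n → Fin n → Bool) :=
  univ.filter (fun f => ∀ u ∈ W, ∃ a ∈ S, t f a u = true)

lemma mem_Bad {S W : Finset (Fin n)} {f : Fin n → Fin n → Bool} :
    f ∈ Bad S W ↔ ∀ u ∈ W, ∃ a ∈ S, t f a u = true := by
  simp [Bad]

lemma bad_step (S W : Finset (Fin n)) (u : Fin n) (huS : u ∉ S) (huW : u ∉ W) :
    (Bad S (insert u W)).card * 2 ^ S.card = (Bad S W).card * (2 ^ S.card - 1) := by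
  classical
  set N : Finset (Fin n) → ℕ := fun A =>
    ((Bad S W).filter (fun f => S.filter (fun a => t f a u = true) = A)).card with hN
  have hne : ∀ a ∈ S, a ≠ u := fun a ha h => huS (h ▸ ha)
  have hWne : ∀ w ∈ W, w ≠ u := fun w hw h => huW (h ▸ hw)
  have hflipBad : ∀ A f, f ∈ Bad S W → flip u A f ∈ Bad S W := by
    intro A f hf
    rw [mem_Bad] at hf ⊢
    intro w hw
    obtain ⟨a, ha, h⟩ := hf w hw
    exact ⟨a, ha, by rw [t_flip_other f (hne a ha) (hWne w hw)]; exact h⟩
  have hNA : ∀ A ∈ S.powerset, N A = N ∅ := by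
    intro A hA
    rw [Finset.mem_powerset] at hA
    apply Finset.card_bij' (fun f _ => flip u A f) (fun f _ => flip u A f)
    · intro f hf
      rw [Finset.mem_filter] at hf ⊢
      refine ⟨hflipBad A f hf.1, ?_⟩
      rw [Finset.filter_eq_empty_iff]
      intro a ha
      rw [t_flip_self f (hne a ha)]
      by_cases haA : a ∈ A
      · have : a ∈ S.filter (fun a => t f a u = true) := by rw [hf.2]; exact haA
        rw [Finset.mem_filter] at this
        simp [haA, this.2]
      · have : a ∉ S.filter (fun a => t f a u = true) := by rw [hf.2]; exact haA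
        rw [Finset.mem_filter] at this
        have h2 : t f a u = false := by
          by_contra h3
          exact this ⟨ha, by simpa using h3⟩
        simp [haA, h2]
    · intro f hf
      rw [Finset.mem_filter] at hf ⊢
      refine ⟨hflipBad A f hf.1, ?_⟩
      have h0 : ∀ a ∈ S, t f a u = false := by
        intro a ha
        have := (Finset.filter_eq_empty_iff.1 hf.2) ha
        simpa using this
      ext a
      rw [Finset.mem_filter]
      constructor
      · rintro ⟨ha, h⟩
        rw [t_flip_self f (hne a ha), h0 a ha] at h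
        simpa using h
      · intro ha
        refine ⟨hA ha, ?_⟩
        rw [t_flip_self f (hne a (hA ha)), h0 a (hA ha)]
        simpa using ha
    · intro f _; exact flip_flip u A f
    · intro f _; exact flip_flip u A f
  have hsum : (Bad S W).card = 2 ^ S.card * N ∅ := by
    have h1 : (Bad S W).card = ∑ A ∈ S.powerset, N A := by
      apply Finset.card_eq_sum_card_fiberwise
      intro f _
      simp only [Finset.coe_powerset, Set.mem_preimage, Set.mem_powerset_iff, Finset.coe_subset]
      exact Finset.filter_subset _ _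
    rw [h1, Finset.sum_congr rfl hNA, Finset.sum_const, Finset.card_powerset, smul_eq_mul]
  have hsplit : (Bad S W).card = (Bad S (insert u W)).card + N ∅ := by
    rw [← Finset.card_filter_add_card_filter_not (s := Bad S W)
      (fun f => ∃ a ∈ S, t f a u = true)]
    congr 1
    · congr 1
      ext f
      rw [Finset.mem_filter, mem_Bad, mem_Bad]
      simp only [Finset.mem_insert, forall_eq_or_imp]
      tauto
    · rw [hN]
      congr 1
      ext f
      rw [Finset.mem_filter, Finset.mem_filter, Finset.filter_eq_empty_iff]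
      constructor
      · rintro ⟨h1, h2⟩
        refine ⟨h1, fun a ha h => h2 ⟨a, ha, h⟩⟩
      · rintro ⟨h1, h2⟩
        refine ⟨h1, ?_⟩
        rintro ⟨a, ha, h⟩
        exact h2 ha h
  have hpos : 1 ≤ 2 ^ S.card := Nat.one_le_two_pow
  obtain ⟨m, hm⟩ : ∃ m, 2 ^ S.card = m + 1 := ⟨2 ^ S.card - 1, by omega⟩
  rw [hm] at hsum ⊢
  rw [hsum] at hsplit ⊢
  have : (Bad S (insert u W)).card = m * N ∅ := by
    have h3 : (m + 1) * N ∅ = m * N ∅ + N ∅ := by ring
    omega
  rw [this, Nat.add_sub_cancel]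
  ring

lemma bad_card (S W : Finset (Fin n)) (hSW : Disjoint S W) :
    (Bad S W).card * 2 ^ (S.card * W.card) =
      (2 ^ S.card - 1) ^ W.card * Fintype.card (Fin n → Fin n → Bool) := by
  classical
  induction W using Finset.induction_on with
  | empty => simp [Bad]
  | insert u W hu ih =>
    rw [Finset.disjoint_insert_right] at hSW
    have h1 := bad_step S W u hSW.1 hu
    have h2 := ih hSW.2
    rw [Finset.card_insert_of_notMem hu, Nat.mul_succ, pow_add, pow_succ]
    calc (Bad S (insert u W)).card * (2 ^ (S.card * W.card) * 2 ^ S.card)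
        = ((Bad S (insert u W)).card * 2 ^ S.card) * 2 ^ (S.card * W.card) := by ring
      _ = ((Bad S W).card * (2 ^ S.card - 1)) * 2 ^ (S.card * W.card) := by rw [h1]
      _ = ((Bad S W).card * 2 ^ (S.card * W.card)) * (2 ^ S.card - 1) := by ring
      _ = ((2 ^ S.card - 1) ^ W.card * Fintype.card (Fin n → Fin n → Bool)) *
            (2 ^ S.card - 1) := by rw [h2]
      _ = _ := by ring

/-- Erdős: if `C(n,k) (1 - 2^{-k})^{n-k} < 1` then some tournament on `n` vertices is dominated by
no `k` vertices. -/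
lemma exists_tournament (k : ℕ)
    (h : n.choose k * (2 ^ k - 1) ^ (n - k) < 2 ^ (k * (n - k))) :
    ∃ T : Fin n → Fin n → Prop, (∀ u v, u ≠ v → (T u v ∨ T v u)) ∧
      ∀ S : Finset (Fin n), S.card = k → ∃ u, u ∉ S ∧ ∀ a ∈ S, ¬ T a u := by
  classical
  set P : Finset (Finset (Fin n)) := (univ : Finset (Fin n)).powersetCard k with hP
  have hΩ : 0 < Fintype.card (Fin n → Fin n → Bool) := Fintype.card_pos
  have hcard : (P.biUnion (fun S => Bad S Sᶜ)).card < Fintype.card (Fin n → Fin n → Bool) := by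
    have h1 : (P.biUnion (fun S => Bad S Sᶜ)).card ≤ ∑ S ∈ P, (Bad S Sᶜ).card :=
      Finset.card_biUnion_le
    have h2 : ∀ S ∈ P, (Bad S Sᶜ).card * 2 ^ (k * (n - k)) =
        (2 ^ k - 1) ^ (n - k) * Fintype.card (Fin n → Fin n → Bool) := by
      intro S hS
      have hSc : S.card = k := (Finset.mem_powersetCard.1 hS).2
      have := bad_card S Sᶜ disjoint_compl_right
      rw [Finset.card_compl, Fintype.card_fin, hSc] at this
      exact this
    have h3 : (∑ S ∈ P, (Bad S Sᶜ).card) * 2 ^ (k * (n - k)) =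
        n.choose k * (2 ^ k - 1) ^ (n - k) * Fintype.card (Fin n → Fin n → Bool) := by
      rw [Finset.sum_mul, Finset.sum_congr rfl h2, Finset.sum_const, hP, Finset.card_powersetCard,
        Finset.card_univ, Fintype.card_fin, smul_eq_mul]
      ring
    have h4 : (∑ S ∈ P, (Bad S Sᶜ).card) * 2 ^ (k * (n - k)) <
        Fintype.card (Fin n → Fin n → Bool) * 2 ^ (k * (n - k)) := by
      rw [h3, mul_comm (Fintype.card (Fin n → Fin n → Bool))]
      exact Nat.mul_lt_mul_of_pos_right h hΩ
    exact lt_of_le_of_lt h1 (lt_of_mul_lt_mul_right h4 (Nat.zero_le _))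
  obtain ⟨f, hf⟩ : ∃ f : Fin n → Fin n → Bool, f ∉ P.biUnion (fun S => Bad S Sᶜ) := by
    by_contra hcon
    push Not at hcon
    have : P.biUnion (fun S => Bad S Sᶜ) = univ := Finset.eq_univ_iff_forall.2 hcon
    rw [this, Finset.card_univ] at hcard
    exact lt_irrefl _ hcard
  refine ⟨fun a u => t f a u = true, ?_, ?_⟩
  · intro u v huv
    show t f u v = true ∨ t f v u = true
    unfold t
    rcases lt_or_gt_of_ne huv with h1 | h1
    · rw [if_pos h1, if_neg (lt_asymm h1)]
      cases f u v <;> simp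
    · rw [if_neg (lt_asymm h1), if_pos h1]
      cases f v u <;> simp
  · intro S hS
    have h1 : f ∉ Bad S Sᶜ := by
      intro h2
      exact hf (Finset.mem_biUnion.2 ⟨S, Finset.mem_powersetCard.2 ⟨Finset.subset_univ _, hS⟩, h2⟩)
    rw [mem_Bad] at h1
    push Not at h1
    obtain ⟨u, hu, h2⟩ := h1
    exact ⟨u, by simpa using hu, h2⟩

end tour

/-! ### Small tournaments have small dominating sets -/

lemma small_dom {V : Type} [DecidableEq V] (T : V → V → Prop)
    (hT : ∀ u v, u ≠ v → (T u v ∨ T v u)) (q : ℕ) :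
    ∀ E : Finset V, E.card + 2 ≤ 2 ^ (q + 1) →
      ∃ P ⊆ E, P.card ≤ q ∧ ∀ u ∈ E, u ∉ P → ∃ a ∈ P, T a u := by
  classical
  induction q with
  | zero =>
    intro E hE
    have : E = ∅ := by
      rw [← Finset.card_eq_zero]
      have : (2 : ℕ) ^ (0 + 1) = 2 := by norm_num
      omega
    subst this
    exact ⟨∅, Finset.Subset.refl _, by simp, by simp⟩
  | succ q ih =>
    intro E hE
    rcases E.eq_empty_or_nonempty with rfl | hne
    · exact ⟨∅, Finset.Subset.refl _, by simp, by simp⟩
    -- a vertex that dominates at least half of the others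
    obtain ⟨a, ha, hac⟩ : ∃ a ∈ E, 2 * (E.filter (fun j => a ≠ j ∧ ¬ T a j)).card ≤ E.card - 1 := by
      by_contra hcon
      push Not at hcon
      let A := E.offDiag.filter (fun x => ¬ T x.1 x.2)
      have hA1 : A.card = ∑ a ∈ E, (E.filter (fun j => a ≠ j ∧ ¬ T a j)).card := by
        have : A = E.biUnion (fun a => (E.filter (fun j => a ≠ j ∧ ¬ T a j)).image
            (fun j => (a, j))) := by
          ext ⟨x, y⟩
          simp only [A, Finset.mem_filter, Finset.mem_offDiag, Finset.mem_biUnion,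
            Finset.mem_image, Prod.mk.injEq]
          constructor
          · rintro ⟨⟨h1, h2, h3⟩, h4⟩
            exact ⟨x, h1, y, ⟨h2, h3, h4⟩, rfl, rfl⟩
          · rintro ⟨a, h1, j, ⟨h2, h3, h4⟩, rfl, rfl⟩
            exact ⟨⟨h1, h2, h3⟩, h4⟩
        rw [this, Finset.card_biUnion]
        · apply Finset.sum_congr rfl
          intro a _
          rw [Finset.card_image_of_injective]
          intro j j' h
          simpa using h
        · intro a _ b _ hab
          rw [Function.onFun, Finset.disjoint_left]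
          rintro ⟨x, y⟩ h1 h2
          rw [Finset.mem_image] at h1 h2
          obtain ⟨_, _, h1⟩ := h1
          obtain ⟨_, _, h2⟩ := h2
          rw [Prod.mk.injEq] at h1 h2
          exact hab (h1.1.trans h2.1.symm)
      let B := E.offDiag.filter (fun x => ¬ T x.2 x.1)
      have hAB : A.card = B.card := by
        apply Finset.card_bij (fun x _ => x.swap)
        · intro x hx
          have h1 := (Finset.mem_filter.mp hx)
          have h3 := (Finset.mem_offDiag.mp h1.1)
          exact Finset.mem_filter.mpr ⟨Finset.mem_offDiag.mpr ⟨h3.2.1, h3.1, h3.2.2.symm⟩, h1.2⟩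
        · intro x _ y _ h
          exact Prod.swap_injective h
        · intro x hx
          have h1 := (Finset.mem_filter.mp hx)
          have h3 := (Finset.mem_offDiag.mp h1.1)
          exact ⟨x.swap, Finset.mem_filter.mpr ⟨Finset.mem_offDiag.mpr
            ⟨h3.2.1, h3.1, h3.2.2.symm⟩, h1.2⟩, Prod.swap_swap x⟩
      have hdisj : Disjoint A B := by
        rw [Finset.disjoint_left]
        intro x hx hx'
        have h1 := (Finset.mem_filter.mp hx)
        have h2 := (Finset.mem_filter.mp hx')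
        have h3 := (Finset.mem_offDiag.mp h1.1).2.2
        rcases hT x.1 x.2 h3 with h | h
        · exact h1.2 h
        · exact h2.2 h
      have hle : A.card + B.card ≤ E.offDiag.card := by
        rw [← Finset.card_union_of_disjoint hdisj]
        apply Finset.card_le_card
        intro x hx
        rcases Finset.mem_union.1 hx with h | h
        · exact (Finset.mem_filter.1 h).1
        · exact (Finset.mem_filter.1 h).1
      rw [Finset.offDiag_card] at hle
      have hlt : ∑ a ∈ E, (E.card - 1) < ∑ a ∈ E, 2 * (E.filter (fun j => a ≠ j ∧ ¬ T a j)).card :=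
        Finset.sum_lt_sum_of_nonempty hne hcon
      rw [Finset.sum_const, smul_eq_mul, ← Finset.mul_sum, ← hA1, Nat.mul_sub, mul_one] at hlt
      omega
    have hpos : 0 < E.card := hne.card_pos
    obtain ⟨P, hPE, hPc, hP⟩ := ih (E.filter (fun j => a ≠ j ∧ ¬ T a j)) (by
      rw [pow_succ] at hE
      omega)
    refine ⟨insert a P, ?_, ?_, ?_⟩
    · intro x hx
      rcases Finset.mem_insert.1 hx with rfl | h
      · exact ha
      · exact (Finset.mem_filter.1 (hPE h)).1
    · exact (Finset.card_insert_le _ _).trans (by omega)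
    · intro u hu huP
      rw [Finset.mem_insert, not_or] at huP
      by_cases hau : T a u
      · exact ⟨a, Finset.mem_insert_self _ _, hau⟩
      · obtain ⟨b, hb, hbu⟩ := hP u (Finset.mem_filter.2 ⟨hu, fun h => huP.1 h.symm, hau⟩) huP.2
        exact ⟨b, Finset.mem_insert_of_mem hb, hbu⟩

/-- A set of `r` elements can be ordered with a prescribed `p`-subset in the first `p` places. -/
lemma exists_ordering {n r p : ℕ} (hpr : p < r) (E : Finset (Fin n)) (hE : E.card = r)
    (P : Finset (Fin n)) (hPE : P ⊆ E) (hP : P.card = p) :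
    ∃ e : Fin r ≃ {v : Fin n // v ∈ E}, ∀ i : Fin r, i.val < p ↔ (e i).1 ∈ P := by
  classical
  have h1 : Fintype.card {i : Fin r // i.val < p} = p := by
    rw [Fintype.card_subtype]
    have : (univ.filter (fun i : Fin r => i.val < p)).card = p := by
      have h2 : (univ.filter (fun i : Fin r => i.val < p)).image (fun i => i.val) =
          Finset.range p := by
        ext x
        simp only [Finset.mem_image, Finset.mem_filter, Finset.mem_univ, true_and,
          Finset.mem_range]
        constructor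
        · rintro ⟨i, hi, rfl⟩; exact hi
        · intro hx; exact ⟨⟨x, by omega⟩, hx, rfl⟩
      have h3 := congrArg Finset.card h2
      rwa [Finset.card_image_of_injective _ Fin.val_injective, Finset.card_range] at h3
    exact this
  have h2 : Fintype.card {x : {v : Fin n // v ∈ E} // x.1 ∈ P} = p := by
    rw [← hP, ← Fintype.card_coe P]
    exact Fintype.card_congr
      { toFun := fun x => ⟨x.1.1, x.2⟩
        invFun := fun x => ⟨⟨x.1, hPE x.2⟩, x.2⟩
        left_inv := fun x => rfl
        right_inv := fun x => rfl }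
  have h3 : Fintype.card {i : Fin r // ¬ i.val < p} = r - p := by
    rw [Fintype.card_subtype_compl, h1, Fintype.card_fin]
  have h4 : Fintype.card {x : {v : Fin n // v ∈ E} // ¬ x.1 ∈ P} = r - p := by
    rw [Fintype.card_subtype_compl, h2, Fintype.card_coe, hE]
  let e1 : {i : Fin r // i.val < p} ≃ {x : {v : Fin n // v ∈ E} // x.1 ∈ P} :=
    Fintype.equivOfCardEq (h1.trans h2.symm)
  let e2 : {i : Fin r // ¬ i.val < p} ≃ {x : {v : Fin n // v ∈ E} // ¬ x.1 ∈ P} :=
    Fintype.equivOfCardEq (h3.trans h4.symm)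
  refine ⟨(Equiv.sumCompl (fun i : Fin r => i.val < p)).symm.trans
    ((Equiv.sumCongr e1 e2).trans (Equiv.sumCompl (fun x : {v : Fin n // v ∈ E} => x.1 ∈ P))), ?_⟩
  intro i
  by_cases hi : i.val < p
  · have h5 : (Equiv.sumCompl (fun i : Fin r => i.val < p)).symm i = Sum.inl ⟨i, hi⟩ :=
      Equiv.sumCompl_symm_apply_of_pos (p := fun i : Fin r => i.val < p) hi
    rw [Equiv.trans_apply, Equiv.trans_apply, h5]
    exact ⟨fun _ => (e1 ⟨i, hi⟩).2, fun _ => hi⟩
  · have h5 : (Equiv.sumCompl (fun i : Fin r => i.val < p)).symm i = Sum.inr ⟨i, hi⟩ :=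
      Equiv.sumCompl_symm_apply_of_neg (p := fun i : Fin r => i.val < p) hi
    rw [Equiv.trans_apply, Equiv.trans_apply, h5]
    exact ⟨fun h => absurd h hi, fun h => absurd h (e2 ⟨i, hi⟩).2⟩

/-! ### The domination numbers -/

lemma univ_dom {n r : ℕ} (p : ℕ) (D : Orientation n r) : IsDominating p D univ :=
  fun u hu => absurd (Finset.mem_univ u) hu

lemma gamma_le {n r p : ℕ} {D : Orientation n r} {S : Finset (Fin n)} (h : IsDominating p D S) :
    gamma p D ≤ S.card := Nat.sInf_le ⟨S, h, rfl⟩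

lemma exists_gamma {n r : ℕ} (p : ℕ) (D : Orientation n r) :
    ∃ S : Finset (Fin n), IsDominating p D S ∧ S.card = gamma p D :=
  Nat.sInf_mem (s := {k | ∃ S : Finset (Fin n), IsDominating p D S ∧ S.card = k})
    ⟨_, univ, univ_dom p D, rfl⟩

lemma bddAbove_gamma (p n r : ℕ) : BddAbove {k | ∃ D : Orientation n r, gamma p D = k} := by
  refine ⟨n, ?_⟩
  rintro _ ⟨D, rfl⟩
  have := gamma_le (univ_dom p D)
  rwa [Finset.card_univ, Fintype.card_fin] at this

lemma le_Gamma {n r p : ℕ} (D : Orientation n r) : gamma p D ≤ Gamma p n r :=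
  le_csSup (bddAbove_gamma p n r) ⟨D, rfl⟩

lemma exists_orientation (n r : ℕ) : Nonempty (Orientation n r) := by
  refine ⟨fun E => ?_⟩
  have h : Fintype.card (Fin r) = Fintype.card {v : Fin n // v ∈ E.1} := by
    rw [Fintype.card_fin, Fintype.card_coe, E.2]
  exact Fintype.equivOfCardEq h

lemma Gamma_le {n r p m : ℕ} (h : ∀ D : Orientation n r, gamma p D ≤ m) : Gamma p n r ≤ m := by
  obtain ⟨D⟩ := exists_orientation n r
  exact csSup_le ⟨_, D, rfl⟩ (by rintro _ ⟨D, rfl⟩; exact h D)

/-! ### Lower bound -/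

/-- If a tournament on `n` vertices is dominated by no `k` vertices, then `Γ_p(H(n,r)) > k`. -/
lemma lt_Gamma {n r p k : ℕ} (hpr : p < r) (hr : r + 2 ≤ 2 ^ (p + 1)) (hkn : k ≤ n)
    (T : Fin n → Fin n → Prop) (hT : ∀ u v, u ≠ v → (T u v ∨ T v u))
    (hk : ∀ S : Finset (Fin n), S.card = k → ∃ u, u ∉ S ∧ ∀ a ∈ S, ¬ T a u) :
    k < Gamma p n r := by
  classical
  -- the orientation
  have hP : ∀ E : {E : Finset (Fin n) // E.card = r}, ∃ P ⊆ E.1, P.card = p ∧
      ∀ u ∈ E.1, u ∉ P → ∃ a ∈ P, T a u := by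
    intro E
    obtain ⟨P, hPE, hPc, hPd⟩ := small_dom T hT p E.1 (by rw [E.2]; exact hr)
    obtain ⟨Q, hPQ, hQE, hQc⟩ := Finset.exists_subsuperset_card_eq hPE hPc
      (by rw [E.2]; exact hpr.le)
    refine ⟨Q, hQE, hQc, fun u hu huQ => ?_⟩
    obtain ⟨a, ha, h⟩ := hPd u hu (fun h => huQ (hPQ h))
    exact ⟨a, hPQ ha, h⟩
  choose P hPE hPc hPd using hP
  have hD : ∀ E : {E : Finset (Fin n) // E.card = r}, ∃ e : Fin r ≃ {v : Fin n // v ∈ E.1},
      ∀ i : Fin r, i.val < p ↔ (e i).1 ∈ P E :=
    fun E => exists_ordering hpr E.1 E.2 (P E) (hPE E) (hPc E)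
  choose D hD using hD
  refine lt_of_lt_of_le ?_ (le_Gamma (D : Orientation n r))
  obtain ⟨S, hS, hSc⟩ := exists_gamma p (D : Orientation n r)
  by_contra hcon
  push Not at hcon
  rw [← hSc] at hcon
  obtain ⟨S', hSS', hS'⟩ := Finset.exists_superset_card_eq hcon (by rwa [Fintype.card_fin])
  obtain ⟨u, hu, hua⟩ := hk S' hS'
  obtain ⟨E, huE, hE⟩ := hS u (fun h => hu (hSS' h))
  have hPS : ∀ a ∈ P E, a ∈ S := by
    intro a ha
    obtain ⟨i, hi⟩ := (D E).surjective ⟨a, hPE E ha⟩
    have h1 : (D E i).1 = a := by rw [hi]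
    have h2 : i.val < p := (hD E i).2 (by rw [h1]; exact ha)
    have := hE i h2
    rwa [h1] at this
  have huP : u ∉ P E := fun h => hu (hSS' (hPS u h))
  obtain ⟨a, ha, h⟩ := hPd E u huE huP
  exact hua a (hSS' (hPS a ha)) h

lemma counting {n k : ℕ} (hn : 4 ≤ n) (hk : 1 ≤ k)
    (h : (2 : ℝ) ^ k * (Real.logb 2 n) ^ 2 < n) :
    k ≤ n ∧ n.choose k * (2 ^ k - 1) ^ (n - k) < 2 ^ (k * (n - k)) := by
  set L := Real.logb 2 n with hL
  have hn0 : (0 : ℝ) < n := by exact_mod_cast (by omega : 0 < n)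
  have hL2 : 2 ≤ L := by
    rw [hL, Real.le_logb_iff_rpow_le (by norm_num) hn0]
    have : (4 : ℝ) ≤ n := by exact_mod_cast hn
    norm_num
    linarith
  have h2k : (2 : ℝ) ≤ 2 ^ k := by
    calc (2 : ℝ) = 2 ^ 1 := by norm_num
      _ ≤ 2 ^ k := pow_le_pow_right₀ (by norm_num) hk
  have hkL : (k : ℝ) ≤ L := by
    rw [hL, Real.le_logb_iff_rpow_le (by norm_num) hn0, Real.rpow_natCast]
    have h1 : (2 : ℝ) ^ k * 1 ≤ 2 ^ k * L ^ 2 :=
      mul_le_mul_of_nonneg_left (by nlinarith) (by positivity)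
    linarith
  have hnL : 2 * L ^ 2 < n := by nlinarith [sq_nonneg L]
  -- `4 k < n`
  have h4k : 4 * (k : ℝ) < n := by nlinarith
  have hkn : k ≤ n := by
    have : (k : ℝ) ≤ n := by nlinarith [(Nat.cast_nonneg k : (0 : ℝ) ≤ k)]
    exact_mod_cast this
  refine ⟨hkn, ?_⟩
  have hpos2 : (0 : ℝ) < 2 ^ k := by positivity
  -- real form of the inequality
  have key : (n.choose k : ℝ) * (1 - 1 / 2 ^ k) ^ (n - k) < 1 := by
    have h1 : (n.choose k : ℝ) ≤ (n : ℝ) ^ k := by
      exact_mod_cast Nat.choose_le_pow n k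
    have h2 : (1 - 1 / 2 ^ k : ℝ) ^ (n - k) ≤ Real.exp (-((n - k : ℕ) : ℝ) / 2 ^ k) := by
      have h3 : (1 - 1 / 2 ^ k : ℝ) ≤ Real.exp (-(1 / 2 ^ k)) := by
        have := Real.add_one_le_exp (-(1 / (2 : ℝ) ^ k))
        linarith
      have h4 : (0 : ℝ) ≤ 1 - 1 / 2 ^ k := by
        rw [sub_nonneg, div_le_one hpos2]
        linarith
      calc (1 - 1 / 2 ^ k : ℝ) ^ (n - k) ≤ (Real.exp (-(1 / 2 ^ k))) ^ (n - k) :=
            pow_le_pow_left₀ h4 h3 _
        _ = Real.exp (-((n - k : ℕ) : ℝ) / 2 ^ k) := by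
            rw [← Real.exp_nat_mul]
            congr 1
            ring
    have h5 : (n : ℝ) ^ k = Real.exp (k * Real.log n) := by
      rw [Real.exp_nat_mul, Real.exp_log hn0]
    have h6 : (n.choose k : ℝ) * (1 - 1 / 2 ^ k) ^ (n - k) ≤
        Real.exp (k * Real.log n) * Real.exp (-((n - k : ℕ) : ℝ) / 2 ^ k) := by
      rw [← h5]
      apply mul_le_mul h1 h2 _ (by positivity)
      have h4 : (0 : ℝ) ≤ 1 - 1 / 2 ^ k := by
        rw [sub_nonneg, div_le_one hpos2]
        linarith
      positivity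
    refine lt_of_le_of_lt h6 ?_
    rw [← Real.exp_add, Real.exp_lt_one_iff]
    have hlog : Real.log n = L * Real.log 2 := by
      rw [hL, Real.logb, div_mul_cancel₀]
      exact (Real.log_pos (by norm_num)).ne'
    have hl2 : Real.log 2 < 0.6931471808 := Real.log_two_lt_d9
    have hl2p : 0 < Real.log 2 := Real.log_pos (by norm_num)
    rw [hlog, Nat.cast_sub hkn]
    have h7 : (k : ℝ) * (L * Real.log 2) ≤ L ^ 2 * Real.log 2 := by
      have : (k : ℝ) * L ≤ L * L := mul_le_mul_of_nonneg_right hkL (by linarith)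
      nlinarith
    have h8 : L ^ 2 * (3 / 4) < ((n : ℝ) - k) / 2 ^ k := by
      rw [lt_div_iff₀ hpos2]
      nlinarith
    have h9 : L ^ 2 * Real.log 2 ≤ L ^ 2 * (3 / 4) := by
      apply mul_le_mul_of_nonneg_left _ (sq_nonneg L)
      linarith
    have h10 : -((n : ℝ) - k) / 2 ^ k = -(((n : ℝ) - k) / 2 ^ k) := by ring
    rw [h10]
    linarith
  -- back to natural numbers
  have h11 : ((n.choose k * (2 ^ k - 1) ^ (n - k) : ℕ) : ℝ) < ((2 ^ (k * (n - k)) : ℕ) : ℝ) := by
    push_cast [Nat.one_le_two_pow]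
    have h12 : ((2 : ℝ) ^ k - 1) = 2 ^ k * (1 - 1 / 2 ^ k) := by
      field_simp
    rw [h12, mul_pow, ← pow_mul]
    have h13 : (0 : ℝ) < 2 ^ (k * (n - k)) := by positivity
    calc (n.choose k : ℝ) * (2 ^ (k * (n - k)) * (1 - 1 / 2 ^ k) ^ (n - k))
        = ((n.choose k : ℝ) * (1 - 1 / 2 ^ k) ^ (n - k)) * 2 ^ (k * (n - k)) := by ring
      _ < 1 * 2 ^ (k * (n - k)) := mul_lt_mul_of_pos_right key h13
      _ = _ := one_mul _
  exact_mod_cast h11

lemma one_le_Gamma {n r p : ℕ} (hpr : p < r) (hp : 1 ≤ p)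
    (hn : 1 ≤ n) : 1 ≤ Gamma p n r := by
  obtain ⟨D⟩ := exists_orientation n r
  refine le_trans ?_ (le_Gamma (p := p) D)
  obtain ⟨S, hS, hSc⟩ := exists_gamma p D
  rw [← hSc, Nat.one_le_iff_ne_zero, Ne, Finset.card_eq_zero]
  rintro rfl
  obtain ⟨E, _, h⟩ := hS ⟨0, hn⟩ (Finset.notMem_empty _)
  exact Finset.notMem_empty _ (h ⟨0, by omega⟩ hp)

/-- Lower bound. -/
lemma lower {n r p : ℕ} (hp : 1 ≤ p) (hpr : p < r) (hr : r + 2 ≤ 2 ^ (p + 1)) (hn : 4 ≤ n) :
    Real.logb 2 n - 2 * Real.logb 2 (Real.logb 2 n) ≤ Gamma p n r := by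
  set x := Real.logb 2 n - 2 * Real.logb 2 (Real.logb 2 n) with hx
  have hn0 : (0 : ℝ) < n := by exact_mod_cast (by omega : 0 < n)
  have hL2 : 2 ≤ Real.logb 2 n := by
    rw [Real.le_logb_iff_rpow_le (by norm_num) hn0]
    have : (4 : ℝ) ≤ n := by exact_mod_cast hn
    norm_num
    linarith
  rcases le_or_gt x 1 with h1 | h1
  · have := one_le_Gamma hpr hp (by omega : 1 ≤ n)
    have h2 : (1 : ℝ) ≤ Gamma p n r := by exact_mod_cast this
    linarith
  · -- `k = ⌈x⌉ - 1`
    obtain ⟨k, hk⟩ : ∃ k, ⌈x⌉₊ = k + 1 := ⟨⌈x⌉₊ - 1, by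
      have : 0 < ⌈x⌉₊ := Nat.ceil_pos.2 (by linarith)
      omega⟩
    have hk1 : (k : ℝ) < x := by
      have := Nat.ceil_lt_add_one (by linarith : 0 ≤ x)
      rw [hk] at this
      push_cast at this
      linarith
    have hk2 : x ≤ k + 1 := by
      have := Nat.le_ceil x
      rw [hk] at this
      exact_mod_cast this
    have hk3 : 1 ≤ k := by
      have h3 : (1 : ℝ) < k + 1 := by linarith
      have : 0 < k := by
        by_contra h0
        have : k = 0 := by omega
        rw [this] at h3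
        norm_num at h3
      exact this
    have h4 : (2 : ℝ) ^ k * (Real.logb 2 n) ^ 2 < n := by
      have hLpos : 0 < Real.logb 2 n := by linarith
      have h5 : (2 : ℝ) ^ (x : ℝ) * (Real.logb 2 n) ^ 2 = n := by
        rw [hx, Real.rpow_sub (by norm_num), Real.rpow_logb (by norm_num) (by norm_num) hn0,
          mul_comm (2 : ℝ) (Real.logb 2 (Real.logb 2 n)), Real.rpow_mul (by norm_num),
          Real.rpow_logb (by norm_num) (by norm_num) hLpos]
        rw [Real.rpow_two]
        field_simp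
      have h6 : (2 : ℝ) ^ k < (2 : ℝ) ^ (x : ℝ) := by
        rw [← Real.rpow_natCast]
        exact Real.rpow_lt_rpow_of_exponent_lt (by norm_num) hk1
      calc (2 : ℝ) ^ k * (Real.logb 2 n) ^ 2 < (2 : ℝ) ^ (x : ℝ) * (Real.logb 2 n) ^ 2 :=
            mul_lt_mul_of_pos_right h6 (by positivity)
        _ = n := h5
    obtain ⟨hkn, h7⟩ := counting hn hk3 h4
    obtain ⟨T, hT, hTk⟩ := exists_tournament k h7
    have h8 := lt_Gamma hpr hr hkn T hT hTk
    have h9 : ((k + 1 : ℕ) : ℝ) ≤ Gamma p n r := by exact_mod_cast h8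
    push_cast at h9
    linarith

/-! ### Upper bound -/

/-- Some `r - 1` vertices of `U` dominate at least a fraction `1 / r` of the others. -/
lemma pigeon {n r : ℕ} (hr : 1 ≤ r) (D : Orientation n r) (U : Finset (Fin n)) (hU : r ≤ U.card) :
    ∃ P : Finset (Fin n), P.card = r - 1 ∧ ∃ W ⊆ U, Disjoint W P ∧ P ⊆ U ∧
      U.card - (r - 1) ≤ W.card * r ∧
      ∀ u ∈ W, ∃ E : {E : Finset (Fin n) // E.card = r},
        u ∈ E.1 ∧ ∀ i : Fin r, i.val < r - 1 → (D E i).1 ∈ P := by
  classical
  by_contra hcon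
  push Not at hcon
  set dom : Finset (Fin n) → Fin n → Prop := fun P u =>
    ∃ E : {E : Finset (Fin n) // E.card = r}, u ∈ E.1 ∧ ∀ i : Fin r, i.val < r - 1 → (D E i).1 ∈ P
    with hdom
  set c : Finset (Fin n) → Finset (Fin n) := fun P => U.filter (fun u => u ∉ P ∧ dom P u) with hc
  have h1 : ∀ P ∈ U.powersetCard (r - 1), (c P).card * r < U.card - (r - 1) := by
    intro P hP
    rw [Finset.mem_powersetCard] at hP
    by_contra h2
    push Not at h2
    obtain ⟨u, hu, h3⟩ := hcon P hP.2 (c P) (Finset.filter_subset _ _)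
      (by
        rw [Finset.disjoint_left]
        intro u hu
        exact (Finset.mem_filter.1 hu).2.1) hP.1 h2
    obtain ⟨E, hE, h4⟩ := (Finset.mem_filter.1 hu).2.2
    obtain ⟨i, hi, h5⟩ := h3 E hE
    exact h5 (h4 i hi)
  have h2 : (U.powersetCard r).card ≤ ∑ P ∈ U.powersetCard (r - 1), (c P).card := by
    rw [← Finset.card_sigma]
    let last : Fin r := ⟨r - 1, by omega⟩
    let g : Finset (Fin n) → (Σ _ : Finset (Fin n), Fin n) := fun E =>
      if h : E.card = r then ⟨E.erase (D ⟨E, h⟩ last).1, (D ⟨E, h⟩ last).1⟩ else ⟨∅, ⟨0, by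
        have : 0 < U.card := by omega
        obtain ⟨x, _⟩ := Finset.card_pos.1 this
        exact x.pos⟩⟩
    apply Finset.card_le_card_of_injOn g
    · intro E hE
      rw [Finset.mem_coe, Finset.mem_powersetCard] at hE
      have hg : g E = ⟨E.erase (D ⟨E, hE.2⟩ last).1, (D ⟨E, hE.2⟩ last).1⟩ := by
        simp only [g]
        rw [dif_pos hE.2]
      rw [hg, Finset.mem_coe, Finset.mem_sigma]
      have hm : (D ⟨E, hE.2⟩ last).1 ∈ E := (D ⟨E, hE.2⟩ last).2
      refine ⟨?_, ?_⟩
      · rw [Finset.mem_powersetCard]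
        refine ⟨(Finset.erase_subset _ _).trans hE.1, ?_⟩
        rw [Finset.card_erase_of_mem hm, hE.2]
      · rw [hc, Finset.mem_filter]
        refine ⟨hE.1 hm, Finset.notMem_erase _ _, ⟨E, hE.2⟩, hm, ?_⟩
        intro i hi
        rw [Finset.mem_erase]
        refine ⟨?_, (D ⟨E, hE.2⟩ i).2⟩
        intro h
        have h3 : D ⟨E, hE.2⟩ i = D ⟨E, hE.2⟩ last := Subtype.ext h
        have h4 := (D ⟨E, hE.2⟩).injective h3
        rw [h4] at hi
        exact lt_irrefl _ hi
    · intro E hE F hF h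
      rw [Finset.mem_coe, Finset.mem_powersetCard] at hE hF
      have hgE : g E = ⟨E.erase (D ⟨E, hE.2⟩ last).1, (D ⟨E, hE.2⟩ last).1⟩ := by
        simp only [g]
        rw [dif_pos hE.2]
      have hgF : g F = ⟨F.erase (D ⟨F, hF.2⟩ last).1, (D ⟨F, hF.2⟩ last).1⟩ := by
        simp only [g]
        rw [dif_pos hF.2]
      rw [hgE, hgF] at h
      have h5 : E.erase (D ⟨E, hE.2⟩ last).1 = F.erase (D ⟨F, hF.2⟩ last).1 :=
        congrArg (fun x : (Σ _ : Finset (Fin n), Fin n) => x.1) h
      have h6 : (D ⟨E, hE.2⟩ last).1 = (D ⟨F, hF.2⟩ last).1 :=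
        congrArg (fun x : (Σ _ : Finset (Fin n), Fin n) => x.2) h
      have hmE : (D ⟨E, hE.2⟩ last).1 ∈ E := (D ⟨E, hE.2⟩ last).2
      have hmF : (D ⟨F, hF.2⟩ last).1 ∈ F := (D ⟨F, hF.2⟩ last).2
      calc E = insert (D ⟨E, hE.2⟩ last).1 (E.erase (D ⟨E, hE.2⟩ last).1) :=
            (Finset.insert_erase hmE).symm
        _ = insert (D ⟨F, hF.2⟩ last).1 (F.erase (D ⟨F, hF.2⟩ last).1) := by rw [h5, h6]
        _ = F := Finset.insert_erase hmF
  have h3 : (U.powersetCard (r - 1)).Nonempty := by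
    rw [Finset.powersetCard_nonempty]
    omega
  have h4 : (∑ P ∈ U.powersetCard (r - 1), (c P).card) * r <
      (U.powersetCard (r - 1)).card * (U.card - (r - 1)) := by
    rw [Finset.sum_mul, ← smul_eq_mul, ← Finset.sum_const]
    exact Finset.sum_lt_sum_of_nonempty h3 h1
  rw [Finset.card_powersetCard] at h2 h4
  have h5 := Nat.choose_succ_right_eq U.card (r - 1)
  rw [Nat.sub_add_cancel hr] at h5
  rw [← h5] at h4
  exact absurd (Nat.mul_le_mul_right r h2) (not_le.2 h4)

lemma upper_aux {n r : ℕ} (hr : 1 ≤ r) (D : Orientation n r) (s : ℕ) :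
    ∀ U : Finset (Fin n), U.card * (r - 1) ^ s < r ^ (s + 1) →
      ∃ S : Finset (Fin n), S.card ≤ (r - 1) * (s + 1) ∧
        ∀ u ∈ U, u ∉ S → ∃ E : {E : Finset (Fin n) // E.card = r},
          u ∈ E.1 ∧ ∀ i : Fin r, i.val < r - 1 → (D E i).1 ∈ S := by
  classical
  induction s with
  | zero =>
    intro U hU
    simp only [pow_zero, mul_one, zero_add, pow_one] at hU
    refine ⟨U, by omega, fun u hu hu' => absurd hu hu'⟩
  | succ s ih =>
    intro U hU
    rcases lt_or_ge U.card r with h | h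
    · refine ⟨U, ?_, fun u hu hu' => absurd hu hu'⟩
      calc U.card ≤ (r - 1) * 1 := by omega
        _ ≤ (r - 1) * (s + 1 + 1) := Nat.mul_le_mul_left _ (by omega)
    · obtain ⟨P, hPc, W, hWU, hWP, hPU, hW, hdom⟩ := pigeon hr D U h
      have h1 : (U \ (P ∪ W)).card * r ≤ U.card * (r - 1) := by
        have h2 : (U \ (P ∪ W)).card = U.card - (P ∪ W).card :=
          Finset.card_sdiff_of_subset (Finset.union_subset hPU hWU)
        have h3 : (P ∪ W).card = (r - 1) + W.card := by
          rw [Finset.card_union_of_disjoint hWP.symm, hPc]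
        rw [h2, h3]
        obtain ⟨m, hm⟩ : ∃ m, U.card = m + (r - 1) := ⟨U.card - (r - 1), by omega⟩
        obtain ⟨q, hq⟩ : ∃ q, r = q + 1 := ⟨r - 1, by omega⟩
        rw [hm] at hW ⊢
        subst hq
        simp only [Nat.add_sub_cancel] at hW ⊢
        have h4 : m + q - (q + W.card) = m - W.card := by omega
        rw [h4, Nat.sub_mul]
        have h5 : m * (q + 1) - W.card * (q + 1) ≤ m * (q + 1) - m := Nat.sub_le_sub_left hW _
        have h6 : m * (q + 1) - m = m * q := by
          rw [Nat.mul_succ, Nat.add_sub_cancel]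
        calc m * (q + 1) - W.card * (q + 1) ≤ m * q := by rw [← h6]; exact h5
          _ ≤ (m + q) * q := Nat.mul_le_mul_right _ (by omega)
      obtain ⟨S, hSc, hS⟩ := ih (U \ (P ∪ W)) (by
        have h2 : (U \ (P ∪ W)).card * (r - 1) ^ s * r < r ^ (s + 1) * r := by
          calc (U \ (P ∪ W)).card * (r - 1) ^ s * r
              = ((U \ (P ∪ W)).card * r) * (r - 1) ^ s := by ring
            _ ≤ (U.card * (r - 1)) * (r - 1) ^ s := Nat.mul_le_mul_right _ h1
            _ = U.card * (r - 1) ^ (s + 1) := by ring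
            _ < r ^ (s + 1 + 1) := hU
            _ = r ^ (s + 1) * r := by ring
        exact lt_of_mul_lt_mul_right h2 (Nat.zero_le _))
      refine ⟨P ∪ S, ?_, ?_⟩
      · calc (P ∪ S).card ≤ P.card + S.card := Finset.card_union_le _ _
          _ ≤ (r - 1) + (r - 1) * (s + 1) := by omega
          _ = (r - 1) * (s + 1 + 1) := by ring
      · intro u hu huS
        rw [Finset.mem_union, not_or] at huS
        by_cases huW : u ∈ W
        · obtain ⟨E, hE, h2⟩ := hdom u huW
          exact ⟨E, hE, fun i hi => Finset.mem_union_left _ (h2 i hi)⟩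
        · obtain ⟨E, hE, h2⟩ := hS u (by
            rw [Finset.mem_sdiff, Finset.mem_union, not_or]
            exact ⟨hu, huS.1, huW⟩) huS.2
          exact ⟨E, hE, fun i hi => Finset.mem_union_right _ (h2 i hi)⟩

/-- Upper bound. -/
lemma upper {n r p : ℕ} (hpr : p < r) (hr : 2 ≤ r) (hn : 1 ≤ n) :
    (Gamma p n r : ℝ) ≤ ((r : ℝ) - 1) * (r * Real.log n + 2) := by
  have hn0 : (0 : ℝ) < n := by exact_mod_cast hn
  have hr0 : (2 : ℝ) ≤ r := by exact_mod_cast hr
  set s := ⌈(r : ℝ) * Real.log n⌉₊ with hs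
  have h1 : (r : ℝ) * Real.log n ≤ s := Nat.le_ceil _
  have hlog : 0 ≤ Real.log n := Real.log_nonneg (by exact_mod_cast hn)
  have h2 : (s : ℝ) ≤ r * Real.log n + 1 :=
    (Nat.ceil_lt_add_one (mul_nonneg (by linarith) hlog)).le
  have hD : ∀ D : Orientation n r, gamma p D ≤ (r - 1) * (s + 1) := by
    intro D
    obtain ⟨S, hSc, hS⟩ := upper_aux (by omega) D s univ (by
      rw [Finset.card_univ, Fintype.card_fin]
      have h3 : ((n * (r - 1) ^ s : ℕ) : ℝ) < ((r ^ (s + 1) : ℕ) : ℝ) := by
        push_cast [(by omega : 1 ≤ r)]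
        have h4 : ((r : ℝ) - 1) = r * (1 - 1 / r) := by
          field_simp
        have h5 : (0 : ℝ) ≤ 1 - 1 / r := by
          rw [sub_nonneg, div_le_one (by linarith)]
          linarith
        have h6 : (1 - 1 / r : ℝ) ^ s ≤ Real.exp (-((s : ℝ) / r)) := by
          have h7 : (1 - 1 / r : ℝ) ≤ Real.exp (-(1 / r)) := by
            have := Real.add_one_le_exp (-(1 / (r : ℝ)))
            linarith
          calc (1 - 1 / r : ℝ) ^ s ≤ (Real.exp (-(1 / r))) ^ s := pow_le_pow_left₀ h5 h7 _
            _ = Real.exp (-((s : ℝ) / r)) := by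
              rw [← Real.exp_nat_mul]
              congr 1
              ring
        have h8 : (n : ℝ) * Real.exp (-((s : ℝ) / r)) ≤ 1 := by
          have h9 : Real.log n ≤ (s : ℝ) / r := by
            rw [le_div_iff₀ (by linarith)]
            linarith
          calc (n : ℝ) * Real.exp (-((s : ℝ) / r))
              = Real.exp (Real.log n) * Real.exp (-((s : ℝ) / r)) := by rw [Real.exp_log hn0]
            _ = Real.exp (Real.log n - (s : ℝ) / r) := by rw [← Real.exp_add]; ring_nf
            _ ≤ 1 := by rw [Real.exp_le_one_iff]; linarith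
        rw [h4, mul_pow, pow_succ]
        have hrs : (0 : ℝ) < (r : ℝ) ^ s := by positivity
        calc (n : ℝ) * ((r : ℝ) ^ s * (1 - 1 / r) ^ s)
            = (r : ℝ) ^ s * (n * (1 - 1 / r) ^ s) := by ring
          _ ≤ (r : ℝ) ^ s * (n * Real.exp (-((s : ℝ) / r))) := by
              apply mul_le_mul_of_nonneg_left _ hrs.le
              exact mul_le_mul_of_nonneg_left h6 hn0.le
          _ ≤ (r : ℝ) ^ s * 1 := mul_le_mul_of_nonneg_left h8 hrs.le
          _ < (r : ℝ) ^ s * r := mul_lt_mul_of_pos_left (by linarith) hrs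
      exact_mod_cast h3)
    refine le_trans (gamma_le (S := S) ?_) hSc
    intro u hu
    obtain ⟨E, hE, h⟩ := hS u (Finset.mem_univ u) hu
    exact ⟨E, hE, fun i hi => h i (by omega)⟩
  have h3 : (Gamma p n r : ℝ) ≤ ((r - 1) * (s + 1) : ℕ) := by exact_mod_cast Gamma_le hD
  refine h3.trans ?_
  push_cast [(by omega : 1 ≤ r)]
  apply mul_le_mul_of_nonneg_left _ (by linarith)
  linarith

/-- **Order of `Γ_p(H(n,r))`** for all `1 ≤ p < r` with `r + 2 ≤ 2 ^ (p + 1)`, in particular for
`p = r - 1` and every `r ≥ 2`: explicit lower and upper bounds, and the order of magnitude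
`Θ(log n)`. -/
theorem result (r p : ℕ) (hp : 1 ≤ p) (hpr : p < r) (hr : r + 2 ≤ 2 ^ (p + 1)) :
    (∀ n : ℕ, 4 ≤ n →
      Real.logb 2 n - 2 * Real.logb 2 (Real.logb 2 n) ≤ (Gamma p n r : ℝ) ∧
      (Gamma p n r : ℝ) ≤ ((r : ℝ) - 1) * (r * Real.log n + 2)) ∧
    (fun n : ℕ => (Gamma p n r : ℝ)) =Θ[Filter.atTop] (fun n : ℕ => Real.log n) := by
  have hr2 : 2 ≤ r := by omega
  refine ⟨fun n hn => ⟨lower hp hpr hr hn, upper hpr hr2 (by omega)⟩, ?_⟩
  have hlogt : Filter.Tendsto (fun n : ℕ => Real.log n) Filter.atTop Filter.atTop :=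
    Real.tendsto_log_atTop.comp tendsto_natCast_atTop_atTop
  constructor
  · -- upper
    apply Asymptotics.IsBigO.of_bound (((r : ℝ) - 1) * (r + 2))
    filter_upwards [Filter.eventually_ge_atTop 4, hlogt.eventually_ge_atTop 1] with n hn h1
    have h2 := upper hpr hr2 (by omega : 1 ≤ n)
    have hr0 : (2 : ℝ) ≤ r := by exact_mod_cast hr2
    rw [Real.norm_of_nonneg (Nat.cast_nonneg _), Real.norm_of_nonneg (by linarith), mul_assoc]
    refine h2.trans (mul_le_mul_of_nonneg_left ?_ (by linarith))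
    nlinarith
  · -- lower
    apply Asymptotics.IsBigO.of_bound 2
    have hL : Filter.Tendsto (fun n : ℕ => Real.logb 2 n) Filter.atTop Filter.atTop :=
      (Real.tendsto_logb_atTop (by norm_num)).comp tendsto_natCast_atTop_atTop
    have h3 : ∀ᶠ x : ℝ in Filter.atTop, 2 * Real.logb 2 x ≤ 1 / 2 * x := by
      have h4 := Real.isLittleO_log_id_atTop.bound (show (0 : ℝ) < Real.log 2 / 4 from
        div_pos (Real.log_pos (by norm_num)) (by norm_num))
      filter_upwards [h4, Filter.eventually_ge_atTop 1] with x h5 h6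
      rw [Real.norm_of_nonneg (Real.log_nonneg h6), id, Real.norm_of_nonneg (by linarith)] at h5
      have h7 : 0 < Real.log 2 := Real.log_pos (by norm_num)
      rw [Real.logb, mul_div_assoc', div_le_iff₀ h7]
      nlinarith
    filter_upwards [Filter.eventually_ge_atTop 4, hL.eventually h3] with n hn h4
    have h5 := lower hp hpr hr hn
    have h6 : 0 ≤ Real.log n := Real.log_nonneg (by exact_mod_cast (by omega : 1 ≤ n))
    rw [Real.norm_of_nonneg (Nat.cast_nonneg _), Real.norm_of_nonneg h6]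
    have h7 : Real.log n ≤ Real.logb 2 n := by
      rw [Real.logb, le_div_iff₀ (Real.log_pos (by norm_num))]
      have : Real.log 2 < 0.6931471808 := Real.log_two_lt_d9
      nlinarith
    linarith

end Pool.Agent.Results.MP_869403_co.LogOrder
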